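import Pool.Agent.helper92.RC.Spec

set_option autoImplicit false

namespace Pool.Agent.helper92.RC

open scoped commutatorElement

universe u

/-- The image of a piece under a surjection. -/
def QIM_push {𝒳 : ∀ X : Type u, Group X → Prop} {G H : Type u} [Group G] [Group H] (f : G →* H)
    (hf : Function.Surjective f) (p : Piece 𝒳 G) : Piece 𝒳 H where
  L := p.L
  X := p.X
  gX := p.gX
  hX := p.hX
  M := p.M
  hM := p.hM
  θ := f.comp p.θ
  hθ := by
    rw [← MonoidHom.map_range]
    exact p.hθ.map f hf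

theorem QIM : QIM_stmt.{u} := by
  intro G H _ _ f hf hG
  obtain ⟨α, hα⟩ := hG
  refine ⟨α, (Q_iff α H _).2 ?_⟩
  have h := (Q_iff α G _).1 hα
  rcases h with h | h
  · left
    intro x y
    obtain ⟨a, rfl⟩ := hf x
    obtain ⟨b, rfl⟩ := hf y
    rw [← map_mul, h, map_mul]
  · right
    intro g
    obtain ⟨a, rfl⟩ := hf g
    obtain ⟨p, q, x, y, hxy⟩ := h a
    refine ⟨QIM_push f hf p, QIM_push f hf q, x, y, ?_⟩
    rw [hxy, map_mul]
    rfl

end Pool.Agent.helper92.RC
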